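import Mathlib

/-!
# Nonlinearity of the ortho-derivative of a quadratic APN function (MP_4cfb12_co)

A quadratic APN function on `F_2^n`, `n ≥ 3`, whose ortho-derivative has nonlinearity zero exists
exactly when `n = 3`.
-/

set_option autoImplicit false

namespace Pool.Agent.Results.MP_4cfb12_co.OnlyDimensionThree

open Finset

/-- `F_2^n`. -/
abbrev Vec (n : ℕ) : Type := Fin n → ZMod 2

variable {n : ℕ}

/-- The standard dot product. -/
def dot (u v : Vec n) : ZMod 2 := ∑ i, u i * v i

/-- `F` is APN: for `a ≠ 0` the equation `F (x + a) + F x = b` has at most two solutions. -/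
def IsAPN (F : Vec n → Vec n) : Prop :=
  ∀ a : Vec n, a ≠ 0 → ∀ b : Vec n, (univ.filter fun x => F (x + a) + F x = b).card ≤ 2

/-- All coordinates of `F` are polynomials of degree at most two. -/
def DegLeTwo (F : Vec n → Vec n) : Prop :=
  ∃ (q : Fin n → Fin n → Fin n → ZMod 2) (l : Fin n → Fin n → ZMod 2) (c : Fin n → ZMod 2),
    ∀ x k, F x k = ∑ i, ∑ j, q k i j * (x i * x j) + ∑ i, l k i * x i + c k

/-- All coordinates of `F` are polynomials of degree at most one. -/
def DegLeOne (F : Vec n → Vec n) : Prop :=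
  ∃ (l : Fin n → Fin n → ZMod 2) (c : Fin n → ZMod 2), ∀ x k, F x k = ∑ i, l k i * x i + c k

/-- `F` is quadratic: its algebraic degree is equal to two. -/
def IsQuadratic (F : Vec n → Vec n) : Prop := DegLeTwo F ∧ ¬ DegLeOne F

/-- `π` is an ortho-derivative of `F`: `π 0 = 0`, and for `a ≠ 0` the vector `π a` is nonzero and
orthogonal to all the vectors `D_a F (x) + D_a F (0)`. -/
def IsOrtho (F π : Vec n → Vec n) : Prop :=
  π 0 = 0 ∧ ∀ a, a ≠ 0 → π a ≠ 0 ∧ ∀ x, dot (π a) ((F (x + a) + F x) + (F (0 + a) + F 0)) = 0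

/-- The nonlinearity: the least number of points where a nonzero component `b · G` differs from
an affine function `c · x + d`. -/
noncomputable def NL (G : Vec n → Vec n) : ℕ :=
  sInf {m : ℕ | ∃ b : Vec n, b ≠ 0 ∧ ∃ (c : Vec n) (d : ZMod 2),
    m = (univ.filter fun x => dot b (G x) ≠ dot c x + d).card}

/-! ### Generalities -/

lemma add_self (x : Vec n) : x + x = 0 := by
  ext i
  exact CharTwo.add_self_eq_zero _

lemma add_cancel (x e : Vec n) : x + e + e = x := by rw [add_assoc, add_self, add_zero]

lemma dot_add (u x y : Vec n) : dot u (x + y) = dot u x + dot u y := by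
  simp only [dot, Pi.add_apply, mul_add, Finset.sum_add_distrib]

lemma dot_zero (u : Vec n) : dot u 0 = 0 := by simp [dot]

lemma zero_dot (u : Vec n) : dot 0 u = 0 := by simp [dot]

lemma dot_comm (u v : Vec n) : dot u v = dot v u := by
  simp only [dot]
  exact Finset.sum_congr rfl fun i _ => mul_comm _ _

lemma dot_single (u : Vec n) (i : Fin n) : dot u (Pi.single i 1) = u i := by
  simp only [dot]
  rw [Finset.sum_eq_single i]
  · simp
  · intro j _ hj
    rw [Pi.single_eq_of_ne hj, mul_zero]
  · intro h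
    exact absurd (Finset.mem_univ _) h

lemma exists_dot_ne {u : Vec n} (hu : u ≠ 0) : ∃ e, dot u e = 1 := by
  by_contra hno
  push Not at hno
  apply hu
  ext i
  have h := hno (Pi.single i 1)
  rw [dot_single] at h
  have : ∀ z : ZMod 2, z ≠ 1 → z = 0 := by decide
  exact this _ h

lemma zmod_eq_one {z : ZMod 2} (h : z ≠ 0) : z = 1 := by
  have : ∀ z : ZMod 2, z ≠ 0 → z = 1 := by decide
  exact this z h

/-- The kernel of a linear form has at least half of the vectors. -/
lemma card_ker_ge (u : Vec n) : 2 ^ n ≤ 2 * (univ.filter fun x : Vec n => dot u x = 0).card := by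
  classical
  have htot := Finset.card_filter_add_card_filter_not (s := (univ : Finset (Vec n)))
    (fun x : Vec n => dot u x = 0)
  have hcard : (univ : Finset (Vec n)).card = 2 ^ n := by
    rw [Finset.card_univ, Fintype.card_fun, ZMod.card, Fintype.card_fin]
  by_cases hu : u = 0
  · have : (univ.filter fun x : Vec n => dot u x = 0) = univ := by
      apply Finset.filter_true_of_mem
      intro x _
      rw [hu, zero_dot]
    rw [this, hcard]
    omega
  · obtain ⟨e, he⟩ := exists_dot_ne hu
    have hle : (univ.filter fun x : Vec n => ¬ dot u x = 0).card ≤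
        (univ.filter fun x : Vec n => dot u x = 0).card := by
      apply Finset.card_le_card_of_injOn (fun x => x + e)
      · intro x hx
        have hx' : dot u x ≠ 0 := by simpa using hx
        have : dot u (x + e) = 0 := by
          rw [dot_add, he, zmod_eq_one hx']
          decide
        simpa using this
      · intro x _ y _ hxy
        exact add_right_cancel hxy
    omega

/-- The kernel of a nonzero linear form has at most half of the vectors. -/
lemma card_ker_le {u : Vec n} (hu : u ≠ 0) :
    2 * (univ.filter fun x : Vec n => dot u x = 0).card ≤ 2 ^ n := by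
  classical
  have htot := Finset.card_filter_add_card_filter_not (s := (univ : Finset (Vec n)))
    (fun x : Vec n => dot u x = 0)
  have hcard : (univ : Finset (Vec n)).card = 2 ^ n := by
    rw [Finset.card_univ, Fintype.card_fun, ZMod.card, Fintype.card_fin]
  obtain ⟨e, he⟩ := exists_dot_ne hu
  have hle : (univ.filter fun x : Vec n => dot u x = 0).card ≤
      (univ.filter fun x : Vec n => ¬ dot u x = 0).card := by
    apply Finset.card_le_card_of_injOn (fun x => x + e)
    · intro x hx
      have hx' : dot u x = 0 := by simpa using hx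
      have : dot u (x + e) ≠ 0 := by
        rw [dot_add, he, hx']
        decide
      simpa using this
    · intro x _ y _ hxy
      exact add_right_cancel hxy
  omega

/-- A function which is periodic on `U` with a nonzero period in `U` has sum zero. -/
lemma sum_periodic {U : Finset (Vec n)} {e : Vec n} (he : e ≠ 0) (hU : ∀ x ∈ U, x + e ∈ U)
    {g : Vec n → ZMod 2} (hg : ∀ x ∈ U, g (x + e) = g x) : ∑ x ∈ U, g x = 0 := by
  apply Finset.sum_involution (fun x _ => x + e)
  · intro x hx
    rw [hg x hx]
    exact CharTwo.add_self_eq_zero _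
  · intro x _ _ h
    apply he
    have : x + e = x + 0 := by rw [add_zero]; exact h
    exact add_left_cancel this
  · exact hU
  · intro x _
    exact add_cancel x e

/-! ### The alternating form -/

/-- `D_a F (x) + D_a F (0)`. -/
def BB (F : Vec n → Vec n) (a x : Vec n) : Vec n := (F (x + a) + F x) + (F (0 + a) + F 0)

variable {F : Vec n → Vec n}

lemma BB_comm (a x : Vec n) : BB F a x = BB F x a := by
  simp only [BB, zero_add]
  rw [add_comm x a]
  abel

lemma BB_self (a : Vec n) : BB F a a = 0 := by
  simp only [BB, zero_add, add_self]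
  rw [add_comm (F 0) (F a), add_self]

lemma BB_zero (a : Vec n) : BB F a 0 = 0 := by
  simp only [BB, add_self]

lemma BB_shift (a x : Vec n) : BB F a (x + a) = BB F a x := by
  simp only [BB, add_cancel]
  rw [add_comm (F x) (F (x + a))]

lemma BB_formula {q : Fin n → Fin n → Fin n → ZMod 2} {l : Fin n → Fin n → ZMod 2}
    {c : Fin n → ZMod 2}
    (hF : ∀ x k, F x k = ∑ i, ∑ j, q k i j * (x i * x j) + ∑ i, l k i * x i + c k)
    (a x : Vec n) (k : Fin n) :
    BB F a x k = ∑ i, ∑ j, q k i j * (x i * a j + a i * x j) := by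
  have h1 : ∑ i, ∑ j, q k i j * ((x i + a i) * (x j + a j)) =
      ∑ i, ∑ j, q k i j * (x i * x j) + ∑ i, ∑ j, q k i j * (a i * a j) +
        ∑ i, ∑ j, q k i j * (x i * a j + a i * x j) := by
    simp only [← Finset.sum_add_distrib]
    exact Finset.sum_congr rfl fun i _ => Finset.sum_congr rfl fun j _ => by ring
  have h2 : ∑ i, l k i * (x i + a i) = ∑ i, l k i * x i + ∑ i, l k i * a i := by
    simp only [← Finset.sum_add_distrib]
    exact Finset.sum_congr rfl fun i _ => by ring
  have h3 : F 0 k = c k := by rw [hF]; simp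
  have h4 : F (x + a) k = ∑ i, ∑ j, q k i j * ((x i + a i) * (x j + a j)) +
      ∑ i, l k i * (x i + a i) + c k := by rw [hF]; rfl
  simp only [BB, zero_add, Pi.add_apply]
  rw [h4, h1, h2, h3, hF x, hF a]
  have two : (2 : ZMod 2) = 0 := rfl
  linear_combination (∑ i, ∑ j, q k i j * (x i * x j) + ∑ i, ∑ j, q k i j * (a i * a j) +
    ∑ i, l k i * x i + ∑ i, l k i * a i + 2 * c k) * two

lemma BB_add (hF : DegLeTwo F) (a x y : Vec n) : BB F a (x + y) = BB F a x + BB F a y := by
  obtain ⟨q, l, c, hF⟩ := hF
  ext k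
  rw [Pi.add_apply, BB_formula hF, BB_formula hF, BB_formula hF]
  simp only [← Finset.sum_add_distrib, Pi.add_apply]
  exact Finset.sum_congr rfl fun i _ => Finset.sum_congr rfl fun j _ => by ring

lemma card_fiber (hA : IsAPN F) {a : Vec n} (ha : a ≠ 0) (y : Vec n) :
    (univ.filter fun x => BB F a x = y).card ≤ 2 := by
  have h := hA a ha (y + (F (0 + a) + F 0))
  refine le_trans (Finset.card_le_card ?_) h
  intro x hx
  rw [Finset.mem_filter] at hx ⊢
  refine ⟨hx.1, ?_⟩
  rw [← hx.2, BB, add_cancel]

/-- The image of `BB F a` is the whole orthogonal space of an ortho-derivative. -/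
lemma image_eq (hA : IsAPN F) {a u : Vec n} (ha : a ≠ 0) (hu : u ≠ 0)
    (h : ∀ x, dot u (BB F a x) = 0) {y : Vec n} (hy : dot u y = 0) : ∃ x, BB F a x = y := by
  classical
  set I : Finset (Vec n) := univ.image fun x => BB F a x with hI
  have hsub : I ⊆ univ.filter fun y : Vec n => dot u y = 0 := by
    intro z hz
    rw [hI, Finset.mem_image] at hz
    obtain ⟨x, -, rfl⟩ := hz
    simpa using h x
  have hcard : (univ : Finset (Vec n)).card = 2 ^ n := by
    rw [Finset.card_univ, Fintype.card_fun, ZMod.card, Fintype.card_fin]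
  have h1 : 2 ^ n ≤ 2 * I.card := by
    rw [← hcard]
    apply Finset.card_le_mul_card_image
    intro z _
    exact card_fiber hA ha z
  have h2 := card_ker_le hu
  have h3 : I = univ.filter fun y : Vec n => dot u y = 0 :=
    Finset.eq_of_subset_of_card_le hsub (by omega)
  have h4 : y ∈ I := by rw [h3]; simpa using hy
  rw [hI, Finset.mem_image] at h4
  obtain ⟨x, -, hx⟩ := h4
  exact ⟨x, hx⟩

/-! ### The triples -/

/-- the triple of `a` -/
def T (F : Vec n → Vec n) (b a : Vec n) : Finset (Vec n) :=
  insert a (univ.filter fun x => BB F a x = b)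

lemma T_eq (hA : IsAPN F) {a b x : Vec n} (ha : a ≠ 0) (hx : BB F a x = b) :
    T F b a = {a, x, x + a} := by
  have hxa : x ≠ x + a := by
    intro h
    apply ha
    have : x + 0 = x + a := by rw [add_zero]; exact h
    exact (add_left_cancel this).symm
  have h1 : ({x, x + a} : Finset (Vec n)) = univ.filter fun z => BB F a z = b := by
    apply Finset.eq_of_subset_of_card_le
    · intro z hz
      rw [Finset.mem_insert, Finset.mem_singleton] at hz
      rw [Finset.mem_filter]
      refine ⟨Finset.mem_univ _, ?_⟩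
      rcases hz with rfl | rfl
      · exact hx
      · rw [BB_shift]; exact hx
    · rw [Finset.card_pair hxa]
      exact card_fiber hA ha b
  rw [T, ← h1]

lemma T_card (hA : IsAPN F) {a b x : Vec n} (ha : a ≠ 0) (hb : b ≠ 0) (hx : BB F a x = b) :
    (T F b a).card = 3 := by
  classical
  rw [T_eq hA ha hx]
  have hx0 : x ≠ 0 := by
    rintro rfl
    exact hb (by rw [← hx, BB_zero])
  have hxa : x ≠ a := by
    rintro rfl
    exact hb (by rw [← hx, BB_self])
  rw [Finset.card_eq_three]
  refine ⟨a, x, x + a, hxa.symm, ?_, ?_, rfl⟩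
  · intro h
    apply hx0
    have : 0 + a = x + a := by rw [zero_add]; exact h
    exact (add_right_cancel this).symm
  · intro h
    apply ha
    have : x + 0 = x + a := by rw [add_zero]; exact h
    exact (add_left_cancel this).symm

lemma T_sum (hA : IsAPN F) {a b x : Vec n} (ha : a ≠ 0) (hb : b ≠ 0) (hx : BB F a x = b) :
    ∑ z ∈ T F b a, (F z + F 0) = b := by
  classical
  rw [T_eq hA ha hx]
  have hx0 : x ≠ 0 := by
    rintro rfl
    exact hb (by rw [← hx, BB_zero])
  have hxa : x ≠ a := by
    rintro rfl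
    exact hb (by rw [← hx, BB_self])
  rw [Finset.sum_insert, Finset.sum_insert, Finset.sum_singleton]
  · rw [← hx]
    simp only [BB, zero_add]
    have h0 : F 0 + F 0 = 0 := add_self _
    calc F a + F 0 + (F x + F 0 + (F (x + a) + F 0))
        = F (x + a) + F x + (F a + F 0) + (F 0 + F 0) := by abel
      _ = F (x + a) + F x + (F a + F 0) := by rw [h0, add_zero]
  · rw [Finset.mem_singleton]
    intro h
    apply ha
    have : x + 0 = x + a := by rw [add_zero]; exact h
    exact (add_left_cancel this).symm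
  · rw [Finset.mem_insert, Finset.mem_singleton]
    rintro (h | h)
    · exact hxa h.symm
    · apply hx0
      have : 0 + a = x + a := by rw [zero_add]; exact h
      exact (add_right_cancel this).symm

lemma T_mem (hA : IsAPN F) {a b x : Vec n} (ha : a ≠ 0) (hb : b ≠ 0) (hx : BB F a x = b)
    {z : Vec n} (hz : z ∈ T F b a) : T F b z = T F b a := by
  classical
  have hx0 : x ≠ 0 := by
    rintro rfl
    exact hb (by rw [← hx, BB_zero])
  have hxa : x ≠ a := by
    rintro rfl
    exact hb (by rw [← hx, BB_self])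
  rw [T_eq hA ha hx] at hz ⊢
  rw [Finset.mem_insert, Finset.mem_insert, Finset.mem_singleton] at hz
  rcases hz with rfl | rfl | rfl
  · exact T_eq hA ha hx
  · rw [T_eq hA hx0 (x := a) (by rw [BB_comm]; exact hx), add_comm a z]
    ext w
    simp only [Finset.mem_insert, Finset.mem_singleton]
    tauto
  · have hne : x + a ≠ 0 := by
      intro h
      apply hxa
      have : x + a = a + a := by rw [add_self]; exact h
      exact add_right_cancel this
    have h1 : BB F (x + a) a = b := by rw [BB_comm, BB_shift]; exact hx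
    rw [T_eq hA hne (x := a) h1]
    have h2 : a + (x + a) = x := by rw [add_comm, add_cancel]
    rw [h2]
    ext w
    simp only [Finset.mem_insert, Finset.mem_singleton]
    tauto

/-- The main argument: `b ≠ 0`, the kernel `U` of a linear form has at least eight elements and
every nonzero element `a` of `U` has a partner `x` in `U` with `BB F a x = b`. -/
lemma no_partner (hF : DegLeTwo F) (hA : IsAPN F) {b c : Vec n} (hb : b ≠ 0)
    (hcard : 8 ≤ (univ.filter fun x : Vec n => dot c x = 0).card)
    (hpar : ∀ a, a ≠ 0 → dot c a = 0 → ∃ x, dot c x = 0 ∧ BB F a x = b) : False := by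
  classical
  set U : Finset (Vec n) := univ.filter fun x : Vec n => dot c x = 0 with hU
  have memU : ∀ x, x ∈ U ↔ dot c x = 0 := by intro x; simp [hU]
  have hadd : ∀ x ∈ U, ∀ y ∈ U, x + y ∈ U := by
    intro x hx y hy
    rw [memU] at hx hy ⊢
    rw [dot_add, hx, hy, add_zero]
  have h0U : (0 : Vec n) ∈ U := by rw [memU, dot_zero]
  -- periods
  have hper : ∀ i j : Fin n, ∃ e ∈ U, e ≠ 0 ∧ e i = 0 ∧ e j = 0 := by
    intro i j
    have hlt : (univ : Finset (ZMod 2 × ZMod 2)).card < U.card := by
      refine lt_of_lt_of_le ?_ hcard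
      rw [Finset.card_univ]
      decide
    obtain ⟨x, hx, y, hy, hne, hxy⟩ := Finset.exists_ne_map_eq_of_card_lt_of_maps_to hlt
      (f := fun x : Vec n => (x i, x j)) (fun x _ => Finset.mem_univ _)
    have h1 : x i = y i := congrArg Prod.fst hxy
    have h2 : x j = y j := congrArg Prod.snd hxy
    refine ⟨x + y, hadd x hx y hy, ?_, ?_, ?_⟩
    · intro h
      apply hne
      have : x + y = y + y := by rw [add_self]; exact h
      exact add_right_cancel this
    · rw [Pi.add_apply, h1]; exact CharTwo.add_self_eq_zero _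
    · rw [Pi.add_apply, h2]; exact CharTwo.add_self_eq_zero _
  have hmono : ∀ i j : Fin n, ∑ x ∈ U, x i * x j = 0 := by
    intro i j
    obtain ⟨e, heU, he0, hei, hej⟩ := hper i j
    apply sum_periodic he0 (fun x hx => hadd x hx e heU)
    intro x _
    rw [Pi.add_apply, Pi.add_apply, hei, hej, add_zero, add_zero]
  have hpos : 0 < n := by
    rcases Nat.eq_zero_or_pos n with h | h
    · exfalso
      subst h
      exact hb (Subsingleton.elim _ _)
    · exact h
  have hlin : ∀ i : Fin n, ∑ x ∈ U, x i = 0 := by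
    intro i
    rw [← hmono i i]
    apply Finset.sum_congr rfl
    intro x _
    have : ∀ z : ZMod 2, z = z * z := by decide
    exact this _
  have hone : ((U.card : ℕ) : ZMod 2) = 0 := by
    obtain ⟨e, heU, he0, -, -⟩ := hper ⟨0, hpos⟩ ⟨0, hpos⟩
    have h1 : ∑ x ∈ U, (1 : ZMod 2) = 0 :=
      sum_periodic (g := fun _ => 1) he0 (fun x hx => hadd x hx e heU) (fun _ _ => rfl)
    simpa using h1
  -- the sum of `F x + F 0` over `U`
  have hsum : ∑ x ∈ U, (F x + F 0) = 0 := by
    obtain ⟨q, l, c', hF⟩ := hF
    ext k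
    rw [Finset.sum_apply, Pi.zero_apply]
    have hF0 : F 0 k = c' k := by rw [hF]; simp
    have h1 : ∀ x : Vec n, (F x + F 0) k =
        ∑ i, ∑ j, q k i j * (x i * x j) + ∑ i, l k i * x i := by
      intro x
      rw [Pi.add_apply, hF0, hF]
      have two : (2 : ZMod 2) = 0 := rfl
      linear_combination c' k * two
    rw [Finset.sum_congr rfl fun x _ => h1 x, Finset.sum_add_distrib]
    have h2 : ∑ x ∈ U, ∑ i, ∑ j, q k i j * (x i * x j) = 0 := by
      rw [Finset.sum_comm]
      apply Finset.sum_eq_zero
      intro i _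
      rw [Finset.sum_comm]
      apply Finset.sum_eq_zero
      intro j _
      rw [← Finset.mul_sum, hmono, mul_zero]
    have h3 : ∑ x ∈ U, ∑ i, l k i * x i = 0 := by
      rw [Finset.sum_comm]
      apply Finset.sum_eq_zero
      intro i _
      rw [← Finset.mul_sum, hlin, mul_zero]
    rw [h2, h3, add_zero]
  set V : Finset (Vec n) := U.erase 0 with hV
  have hVsum : ∑ x ∈ V, (F x + F 0) = 0 := by
    have h1 := Finset.add_sum_erase U (fun x => F x + F 0) h0U
    rw [hsum] at h1
    simp only [add_self (F 0), zero_add] at h1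
    exact h1
  have hfib : ∀ t ∈ V.image (T F b), ∃ a x, a ∈ V ∧ BB F a x = b ∧ t = T F b a ∧
      (V.filter fun z => T F b z = t) = t := by
    intro t ht
    rw [Finset.mem_image] at ht
    obtain ⟨a, haV, rfl⟩ := ht
    have ha : a ≠ 0 ∧ a ∈ U := by rw [hV, Finset.mem_erase] at haV; exact haV
    obtain ⟨x, hxc, hx⟩ := hpar a ha.1 ((memU a).1 ha.2)
    refine ⟨a, x, haV, hx, rfl, ?_⟩
    ext z
    rw [Finset.mem_filter]
    constructor
    · rintro ⟨-, hz⟩
      rw [← hz]
      simp [T]
    · intro hz
      refine ⟨?_, T_mem hA ha.1 hb hx hz⟩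
      rw [T_eq hA ha.1 hx, Finset.mem_insert, Finset.mem_insert, Finset.mem_singleton] at hz
      have hx0 : x ≠ 0 := by
        rintro rfl
        exact hb (by rw [← hx, BB_zero])
      have hxa : x ≠ a := by
        rintro rfl
        exact hb (by rw [← hx, BB_self])
      have hxU : x ∈ U := (memU x).2 hxc
      rcases hz with rfl | rfl | rfl
      · exact haV
      · rw [hV, Finset.mem_erase]; exact ⟨hx0, hxU⟩
      · rw [hV, Finset.mem_erase]
        refine ⟨?_, hadd x hxU a ha.2⟩
        intro h
        apply hxa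
        have : x + a = a + a := by rw [add_self]; exact h
        exact add_right_cancel this
  have hmaps : ∀ z ∈ V, T F b z ∈ V.image (T F b) := fun z hz => Finset.mem_image_of_mem _ hz
  have hcount : V.card = 3 * (V.image (T F b)).card := by
    rw [Finset.card_eq_sum_card_fiberwise hmaps, mul_comm, ← smul_eq_mul, ← Finset.sum_const]
    apply Finset.sum_congr rfl
    intro t ht
    obtain ⟨a, x, haV, hx, hta, hf⟩ := hfib t ht
    rw [hf, hta]
    exact T_card hA (by rw [hV, Finset.mem_erase] at haV; exact haV.1) hb hx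
  have hsum2 : ∑ x ∈ V, (F x + F 0) = (V.image (T F b)).card • b := by
    rw [← Finset.sum_fiberwise_of_maps_to hmaps, ← Finset.sum_const]
    apply Finset.sum_congr rfl
    intro t ht
    obtain ⟨a, x, haV, hx, hta, hf⟩ := hfib t ht
    rw [hf, hta]
    exact T_sum hA (by rw [hV, Finset.mem_erase] at haV; exact haV.1) hb hx
  have hVcard : V.card + 1 = U.card := Finset.card_erase_add_one h0U
  set m := (V.image (T F b)).card with hm
  have hmb : m • b = 0 := by rw [← hsum2, hVsum]
  have hm0 : ((m : ℕ) : ZMod 2) = 0 := by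
    obtain ⟨e, he⟩ := exists_dot_ne hb
    have h1 : dot (m • b) e = (m : ZMod 2) * dot b e := by
      simp only [dot, Pi.smul_apply, nsmul_eq_mul, Finset.mul_sum, mul_assoc]
    rw [hmb, zero_dot, he, mul_one] at h1
    exact h1.symm
  have hU2 : ((3 * m + 1 : ℕ) : ZMod 2) = 0 := by
    rw [← hone, ← hVcard, hcount]
  rw [Nat.cast_add, Nat.cast_mul, hm0, mul_zero, zero_add, Nat.cast_one] at hU2
  exact one_ne_zero hU2

/-- For `n ≥ 4` no nonzero component of an ortho-derivative is affine. -/
lemma not_affine (hn : 4 ≤ n) {π : Vec n → Vec n} (hF : DegLeTwo F) (hA : IsAPN F)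
    (hπ : IsOrtho F π) {b c : Vec n} {d : ZMod 2} (hb : b ≠ 0)
    (h : ∀ x, dot b (π x) = dot c x + d) : False := by
  have hd : d = 0 := by
    have := h 0
    rw [hπ.1, dot_zero, dot_zero, zero_add] at this
    exact this.symm
  have h' : ∀ x, dot b (π x) = dot c x := by intro x; rw [h, hd, add_zero]
  apply no_partner hF hA hb (c := c)
  · have h1 := card_ker_ge c
    have h2 : 2 ^ 4 ≤ 2 ^ n := Nat.pow_le_pow_right (by norm_num) hn
    omega
  · intro a ha hca
    obtain ⟨hπa, hort⟩ := hπ.2 a ha
    obtain ⟨x, hx⟩ := image_eq hA ha hπa (fun x => hort x) (y := b) (by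
      rw [dot_comm, h', hca])
    refine ⟨x, ?_, hx⟩
    have hx0 : x ≠ 0 := by
      rintro rfl
      exact hb (by rw [← hx, BB_zero])
    have h3 := (hπ.2 x hx0).2 a
    have h4 : BB F x a = b := by rw [BB_comm]; exact hx
    rw [← h', dot_comm]
    rw [← h4]
    exact h3

/-! ### Existence and uniqueness of the ortho-derivative -/

lemma exists_ortho (hF : DegLeTwo F) {a : Vec n} (ha : a ≠ 0) :
    ∃ u : Vec n, u ≠ 0 ∧ ∀ x, dot u (BB F a x) = 0 := by
  classical
  let f : Vec n →+ Vec n :=
    { toFun := fun x => BB F a x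
      map_zero' := BB_zero a
      map_add' := fun x y => BB_add hF a x y }
  let L : Vec n →ₗ[ZMod 2] Vec n := AddMonoidHom.toZModLinearMap 2 f
  have hL : ∀ x, L x = BB F a x := fun x => rfl
  have hker : LinearMap.ker L ≠ ⊥ := by
    intro h
    apply ha
    have : a ∈ LinearMap.ker L := by rw [LinearMap.mem_ker, hL, BB_self]
    rw [h] at this
    exact (Submodule.mem_bot _).1 this
  have hrange : LinearMap.range L < ⊤ := by
    rw [lt_top_iff_ne_top]
    intro h
    exact hker (LinearMap.ker_eq_bot_iff_range_eq_top.2 h)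
  obtain ⟨g, hg0, hg⟩ := Submodule.exists_le_ker_of_lt_top _ hrange
  have hgd : ∀ y, g y = dot (fun i => g (Pi.single i 1)) y := by
    intro y
    have : y = ∑ i, y i • (Pi.single i (1 : ZMod 2) : Vec n) := by
      ext j
      rw [Finset.sum_apply]
      simp [Pi.single_apply]
    conv_lhs => rw [this]
    rw [map_sum]
    simp only [map_smul, smul_eq_mul, dot]
    exact Finset.sum_congr rfl fun i _ => mul_comm _ _
  refine ⟨fun i => g (Pi.single i 1), ?_, ?_⟩
  · intro h
    apply hg0
    refine LinearMap.ext fun y => ?_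
    rw [hgd y, h, zero_dot]
    rfl
  · intro x
    rw [← hgd, ← hL]
    exact LinearMap.mem_ker.1 (hg (LinearMap.mem_range_self L x))

lemma existsUnique_ortho (hF : DegLeTwo F) (hA : IsAPN F) : ∃! π : Vec n → Vec n, IsOrtho F π := by
  classical
  have h : ∀ a : Vec n, ∃ u : Vec n, (a = 0 → u = 0) ∧
      (a ≠ 0 → u ≠ 0 ∧ ∀ x, dot u (BB F a x) = 0) := by
    intro a
    by_cases ha : a = 0
    · exact ⟨0, fun _ => rfl, fun h => absurd ha h⟩
    · obtain ⟨u, hu⟩ := exists_ortho hF ha
      exact ⟨u, fun h => absurd h ha, fun _ => hu⟩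
  choose π h1 h2 using h
  refine ⟨π, ⟨h1 0 rfl, fun a ha => h2 a ha⟩, ?_⟩
  intro π' hπ'
  funext a
  by_cases ha : a = 0
  · rw [ha, hπ'.1, h1 0 rfl]
  · obtain ⟨hu, hu'⟩ := h2 a ha
    obtain ⟨hv, hv'⟩ := hπ'.2 a ha
    have key : ∀ y, dot (π a) y = 0 ↔ dot (π' a) y = 0 := by
      intro y
      constructor
      · intro hy
        obtain ⟨x, rfl⟩ := image_eq hA ha hu hu' hy
        exact hv' x
      · intro hy
        obtain ⟨x, rfl⟩ := image_eq hA ha hv (fun x => hv' x) hy
        exact hu' x
    ext i
    rw [← dot_single (π' a), ← dot_single (π a)]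
    by_cases h0 : dot (π a) (Pi.single i 1) = 0
    · rw [h0, (key _).1 h0]
    · rw [zmod_eq_one h0, zmod_eq_one (fun h => h0 ((key _).2 h))]

/-! ### The example for `n = 3` -/

/-- `F (x_0, x_1, x_2) = (x_1 x_2, x_0 x_2, x_0 x_1)` -/
def F3 (x : Vec 3) : Vec 3 := ![x 1 * x 2, x 0 * x 2, x 0 * x 1]

lemma F3_apn : IsAPN F3 := by
  unfold IsAPN F3
  decide

lemma F3_ortho : IsOrtho F3 id := by
  unfold IsOrtho F3 dot
  decide

lemma F3_quadratic : IsQuadratic F3 := by
  constructor
  · refine ⟨fun k i j => if (k = 0 ∧ i = 1 ∧ j = 2) ∨ (k = 1 ∧ i = 0 ∧ j = 2) ∨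
      (k = 2 ∧ i = 0 ∧ j = 1) then 1 else 0, fun _ _ => 0, fun _ => 0, ?_⟩
    unfold F3
    decide
  · rintro ⟨l, c, h⟩
    have h0 := h ![0, 0, 0] 0
    have h1 := h ![0, 1, 0] 0
    have h2 := h ![0, 0, 1] 0
    have h3 := h ![0, 1, 1] 0
    simp [F3, Fin.sum_univ_three] at h0 h1 h2 h3
    rw [← h0] at h1 h2 h3
    rw [add_zero] at h1 h2 h3
    rw [← h1, ← h2] at h3
    exact absurd h3 (by decide)

/-- (1) Every quadratic APN function has exactly one ortho-derivative. (2) For `n = 3` there is a
quadratic APN function whose ortho-derivative has nonlinearity zero. (3) For `n ≥ 4` the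
ortho-derivative of every quadratic APN function has positive nonlinearity. -/
theorem result :
    (∀ (n : ℕ) (F : Vec n → Vec n), IsQuadratic F → IsAPN F → ∃! π, IsOrtho F π) ∧
    (∃ F π : Vec 3 → Vec 3, IsQuadratic F ∧ IsAPN F ∧ IsOrtho F π ∧ NL π = 0) ∧
    (∀ n : ℕ, 4 ≤ n → ∀ F π : Vec n → Vec n, IsQuadratic F → IsAPN F → IsOrtho F π →
      0 < NL π) := by
  refine ⟨fun n F hF hA => existsUnique_ortho hF.1 hA, ?_, ?_⟩
  · refine ⟨F3, id, F3_quadratic, F3_apn, F3_ortho, ?_⟩
    rw [NL, Nat.sInf_eq_zero]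
    left
    refine ⟨![1, 0, 0], by decide, ![1, 0, 0], 0, ?_⟩
    symm
    rw [Finset.card_eq_zero, Finset.filter_eq_empty_iff]
    intro x _ h
    apply h
    rw [id, add_zero]
  · intro n hn F π hF hA hπ
    rw [Nat.pos_iff_ne_zero]
    intro h
    rw [NL, Nat.sInf_eq_zero] at h
    rcases h with ⟨b, hb, c, d, hcd⟩ | h
    · apply not_affine hn hF.1 hA hπ hb (c := c) (d := d)
      intro x
      by_contra hx
      have hcd' := Finset.card_eq_zero.1 hcd.symm
      rw [Finset.filter_eq_empty_iff] at hcd'
      exact hcd' (Finset.mem_univ x) hx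
    · have hne : (fun _ => 1 : Vec n) ≠ 0 := by
        intro h1
        have := congrFun h1 ⟨0, by omega⟩
        exact one_ne_zero this
      have : ((univ.filter fun x => dot (fun _ => 1 : Vec n) (π x) ≠ dot (0 : Vec n) x + 0).card) ∈
          ({m : ℕ | ∃ b : Vec n, b ≠ 0 ∧ ∃ (c : Vec n) (d : ZMod 2),
            m = (univ.filter fun x => dot b (π x) ≠ dot c x + d).card}) :=
        ⟨_, hne, 0, 0, rfl⟩
      rw [h] at this
      exact this

end Pool.Agent.Results.MP_4cfb12_co.OnlyDimensionThree
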